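import Pool.Agent.W960.HP.Pos

/-! Every limit cycle persists, together with the properties which are open along the curves of closed
orbits of the rotated fields; counting the closed orbits which persist. -/

open Set Filter Topology MeasureTheory
open scoped ENNReal

namespace Pool.Agent.Y96.HP

open Pool.Agent.W960.HP
open Pool.Agent.H709R2 (ClosedOrbit rot wedge field)
open Pool.Agent.H709U (rf Cl)
open Pool.Agent.H709Q (Maj)

/-- the property `G` is open along curves of closed orbits through `C` which stay in `U` -/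
def OpenAt (G : ℝ → Set (ℝ × ℝ) → Prop) (C U : Set (ℝ × ℝ)) : Prop :=
  ∀ (a : ℝ → ℝ) (γ : ℝ → ℝ → ℝ × ℝ) (ε₀ : ℝ), 0 < ε₀ → a 0 = 0 → ContinuousOn a (Ioo (-ε₀) ε₀) →
    ContinuousOn (fun q : ℝ × ℝ => γ q.1 q.2) (Ioo (-ε₀) ε₀ ×ˢ univ) → C = range (γ 0) →
    ∃ ε > 0, ε ≤ ε₀ ∧ ∀ s ∈ Ioo (-ε) ε, range (γ s) ⊆ U → G (a s) (range (γ s))

/-- **Every limit cycle persists** up to some angle, in at least one direction. -/
theorem exists_pers {F : ℝ × ℝ → ℝ × ℝ} (hF : ContDiff ℝ 2 F) {C : Set (ℝ × ℝ)}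
    (hC : ClosedOrbit F C) {U : Set (ℝ × ℝ)} (hU : IsOpen U) (hCU : C ⊆ U)
    (hiso : ∀ D, ClosedOrbit F D → D ⊆ U → D = C) {G : ℝ → Set (ℝ × ℝ) → Prop}
    (hG : OpenAt G C U) :
    ∃ σ : ℝ, (σ = 1 ∨ σ = -1) ∧ ∃ η₀ > 0, ∀ η ∈ Ioc 0 η₀, PersG F G (σ * η) C := by
  obtain ⟨ε₀, hε₀, a, γ, T, ha0, hC0, hac, hγc, hTc, horb, hinj⟩ := local_curve hF hC
  obtain ⟨ε₁, hε₁, hεε₁, hin₁⟩ := tube hε₀ hγc hTc (fun s hs => (horb s hs).1)
    (fun s hs => (horb s hs).2.2.1) hU (by rw [← hC0]; exact hCU)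
  obtain ⟨ε₂, hε₂, hεε₂, hin₂⟩ := hG a γ ε₀ hε₀ ha0 hac hγc hC0
  obtain ⟨ε, hεdef⟩ : ∃ ε : ℝ, ε = min ε₁ ε₂ := ⟨_, rfl⟩
  have hε : 0 < ε := by rw [hεdef]; exact lt_min hε₁ hε₂
  have hεε : ε ≤ ε₀ := by rw [hεdef]; exact (min_le_left _ _).trans hεε₁
  have hle₁ : ε ≤ ε₁ := by rw [hεdef]; exact min_le_left _ _
  have hle₂ : ε ≤ ε₂ := by rw [hεdef]; exact min_le_right _ _
  have hin : ∀ s ∈ Ioo (-ε) ε, range (γ s) ⊆ U := fun s hs =>
    hin₁ s ⟨by linarith [hs.1], by linarith [hs.2]⟩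
  have hinG : ∀ s ∈ Ioo (-ε) ε, G (a s) (range (γ s)) := fun s hs =>
    hin₂ s ⟨by linarith [hs.1], by linarith [hs.2]⟩ (hin s hs)
  have hsub : ∀ s ∈ Ioo (-ε) ε, s ∈ Ioo (-ε₀) ε₀ := fun s hs =>
    ⟨by linarith [hs.1], by linarith [hs.2]⟩
  have hne : ∀ s ∈ Ioo 0 ε, a s ≠ 0 := by
    intro s hs h0
    have hs' : s ∈ Ioo (-ε) ε := ⟨by linarith [hs.1], hs.2⟩
    obtain ⟨h1, h2, h3, h4⟩ := horb s (hsub s hs')
    rw [h0, rf_zero] at h2
    have h5 := hiso _ ⟨γ s, T s, h1, h2, h3, h4, rfl⟩ (hin s hs')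
    rw [hC0] at h5
    have h6 := hinj s (hsub s hs') 0 ⟨by linarith, hε₀⟩ h5
    exact hs.1.ne' h6
  set s₁ := ε / 2 with hs₁
  have hs₁m : s₁ ∈ Ioo 0 ε := ⟨by positivity, by linarith⟩
  -- the sign of the angle
  obtain ⟨σ, hσ, hσp⟩ : ∃ σ : ℝ, (σ = 1 ∨ σ = -1) ∧ 0 < σ * a s₁ := by
    rcases lt_or_gt_of_ne (hne s₁ hs₁m) with h | h
    · exact ⟨-1, Or.inr rfl, by linarith⟩
    · exact ⟨1, Or.inl rfl, by linarith⟩
  have hsgn : ∀ s ∈ Ioc 0 s₁, 0 < σ * a s := by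
    intro s hs
    by_contra hcon
    have h1 : ContinuousOn (fun x => σ * a x) (Icc s s₁) :=
      (continuousOn_const.mul hac).mono fun x hx => hsub x ⟨by linarith [hx.1, hs.1],
        by linarith [hx.2]⟩
    have h2 := intermediate_value_Icc hs.2 h1
    obtain ⟨x, hx, hx0⟩ := h2 ⟨not_lt.1 hcon, hσp.le⟩
    have hxm : x ∈ Ioo 0 ε := ⟨hs.1.trans_le hx.1, hx.2.trans_lt hs₁m.2⟩
    apply hne x hxm
    simp only at hx0
    rcases hσ with rfl | rfl <;> linarith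
  refine ⟨σ, hσ, σ * a s₁, hσp, fun η hη => ?_⟩
  rw [persG_iff hσ hη.1]
  -- first time at which the angle `η` is reached
  set S : Set ℝ := {s | s ∈ Icc 0 s₁ ∧ η ≤ σ * a s} with hS
  have hacS : ContinuousOn (fun x => σ * a x) (Icc 0 s₁) :=
    (continuousOn_const.mul hac).mono fun x hx => hsub x ⟨by linarith [hx.1],
      by linarith [hx.2]⟩
  have hSc : IsClosed S := by
    have h1 : S = Icc 0 s₁ ∩ (fun x => σ * a x) ⁻¹' (Ici η) := by ext; simp [hS]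
    rw [h1]
    exact hacS.preimage_isClosed_of_isClosed isClosed_Icc isClosed_Ici
  have hSne : S.Nonempty := ⟨s₁, ⟨hs₁m.1.le, le_rfl⟩, hη.2⟩
  have hbdd : BddBelow S := ⟨0, fun x hx => hx.1.1⟩
  set c := sInf S with hc
  have hmem : c ∈ S := hSc.csInf_mem hSne hbdd
  have hlt : ∀ s ∈ Ico 0 c, σ * a s < η := by
    intro s hs
    by_contra hcon
    have h1 : s ∈ S := ⟨⟨hs.1, hs.2.le.trans hmem.1.2⟩, not_lt.1 hcon⟩
    exact absurd (csInf_le hbdd h1) (not_le.2 hs.2)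
  have hcpos : 0 < c := by
    rcases eq_or_lt_of_le hmem.1.1 with h | h
    · have := hmem.2
      rw [← h, ha0] at this
      simp only [mul_zero] at this
      linarith [hη.1]
    · exact h
  have heq : σ * a c = η := by
    refine le_antisymm ?_ hmem.2
    have h1 : ContinuousWithinAt (fun x => σ * a x) (Icc 0 s₁) c := hacS c hmem.1
    have h2 : ContinuousWithinAt (fun x => σ * a x) (Ico 0 c) c :=
      h1.mono fun x hx => ⟨hx.1, hx.2.le.trans hmem.1.2⟩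
    have h3 : (𝓝[Ico 0 c] c).NeBot := by
      rw [← mem_closure_iff_nhdsWithin_neBot, closure_Ico hcpos.ne]
      exact ⟨hcpos.le, le_rfl⟩
    refine le_of_tendsto h2 ?_
    filter_upwards [self_mem_nhdsWithin] with x hx
    exact (hlt x hx).le
  have hm : ∀ τ ∈ Icc (0:ℝ) 1, c * τ ∈ Icc (0:ℝ) s₁ := fun τ hτ =>
    ⟨mul_nonneg hcpos.le hτ.1, by nlinarith [hτ.1, hτ.2, hmem.1.2]⟩
  have hm' : ∀ τ ∈ Icc (0:ℝ) 1, c * τ ∈ Ioo (-ε) ε := fun τ hτ =>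
    ⟨by linarith [(hm τ hτ).1], (hm τ hτ).2.trans_lt hs₁m.2⟩
  have hcm : ContinuousOn (fun τ : ℝ => c * τ) (Icc 0 1) := by fun_prop
  have hσσ : ∀ x : ℝ, σ * (σ * x) = x := fun x => by rcases hσ with rfl | rfl <;> ring
  refine ⟨fun τ => σ * a (c * τ), fun τ => γ (c * τ), fun τ => T (c * τ),
    ⟨hacS.comp hcm hm, by simp [ha0], by simp [heq], ?_, ?_,
      hTc.comp hcm fun τ hτ => hsub _ (hm' τ hτ),
      fun τ hτ => (horb _ (hsub _ (hm' τ hτ))).1, fun τ hτ => ?_,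
      fun τ hτ => (horb _ (hsub _ (hm' τ hτ))).2.2.1,
      fun τ hτ => (horb _ (hsub _ (hm' τ hτ))).2.2.2, ?_⟩,
    fun τ hτ => ?_, by simp [hC0]⟩
  · intro τ hτ
    have h1 : 0 < c * τ := mul_pos hcpos hτ.1
    have h2 : c * τ < c := by nlinarith [hτ.2]
    exact ⟨hsgn _ ⟨h1, (h2.le.trans hmem.1.2)⟩, hlt _ ⟨h1.le, h2⟩⟩
  · have h2 : ContinuousOn (fun q : ℝ × ℝ => ((c * q.1, q.2) : ℝ × ℝ)) (Icc 0 1 ×ˢ univ) := by
      fun_prop
    exact hγc.comp h2 fun q hq => ⟨hsub _ (hm' q.1 hq.1), mem_univ _⟩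
  · simp only [hσσ]
    exact (horb _ (hsub _ (hm' τ hτ))).2.1
  · intro τ hτ τ' hτ' h
    have := hinj _ (hsub _ (hm' τ hτ)) _ (hsub _ (hm' τ' hτ')) h
    exact mul_left_cancel₀ hcpos.ne' this
  · show G (σ * (σ * a (c * τ))) (range (γ (c * τ)))
    rw [hσσ]
    exact hinG _ (hm' τ hτ)

/-- limit cycles have positive persistence -/
theorem pos_pers {F : ℝ × ℝ → ℝ × ℝ} (hF : ContDiff ℝ 2 F) {C : Set (ℝ × ℝ)}
    (hC : ClosedOrbit F C) {U : Set (ℝ × ℝ)} (hU : IsOpen U) (hCU : C ⊆ U)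
    (hiso : ∀ D, ClosedOrbit F D → D ⊆ U → D = C) {G : ℝ → Set (ℝ × ℝ) → Prop}
    (hG : OpenAt G C U) {L : ℝ} (hL : 0 < L) :
    0 < volume {η | η ∈ Ioo (-L) L ∧ PersG F G η C} := by
  obtain ⟨σ, hσ, η₀, hη₀, h⟩ := exists_pers hF hC hU hCU hiso hG
  refine lt_of_lt_of_le ?_ (side_le_two F G hσ L C)
  have h1 : Ioo 0 (min η₀ L) ⊆ {η | η ∈ Ioo 0 L ∧ PersG F G (σ * η) C} := by
    intro η hη
    exact ⟨⟨hη.1, hη.2.trans_le (min_le_right _ _)⟩, h η ⟨hη.1, (hη.2.trans_le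
      (min_le_left _ _)).le⟩⟩
  refine lt_of_lt_of_le ?_ (measure_mono h1)
  rw [Real.volume_Ioo, ENNReal.ofReal_pos]
  simpa using lt_min hη₀ hL

/-- a closed orbit which persists up to an angle `η` has persistence at least `|η|` -/
theorem le_pers {F : ℝ × ℝ → ℝ × ℝ} {G : ℝ → Set (ℝ × ℝ) → Prop} {η : ℝ}
    (hη : η ∈ Ioo (-Real.pi) Real.pi) {C : Set (ℝ × ℝ)} (h : PersG F G η C) :
    ENNReal.ofReal |η| ≤ volume {η | η ∈ Ioo (-Real.pi) Real.pi ∧ PersG F G η C} := by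
  rcases lt_trichotomy η 0 with h0 | h0 | h0
  · refine le_trans ?_ (side_le_two F G (Or.inr rfl) Real.pi C)
    have h1 : Ioo 0 (-η) ⊆ {η' | η' ∈ Ioo 0 Real.pi ∧ PersG F G (-1 * η') C} := by
      intro η' hη'
      refine ⟨⟨hη'.1, by linarith [hη'.2, hη.1]⟩, ?_⟩
      refine persG_mono (Or.inr rfl) hη'.1 hη'.2.le ?_
      rw [show -1 * -η = η by ring]
      exact h
    refine le_trans (le_of_eq ?_) (measure_mono h1)
    rw [Real.volume_Ioo, sub_zero, abs_of_neg h0]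
  · rw [h0, abs_zero, ENNReal.ofReal_zero]
    exact zero_le
  · refine le_trans ?_ (side_le_two F G (Or.inl rfl) Real.pi C)
    have h1 : Ioo 0 η ⊆ {η' | η' ∈ Ioo 0 Real.pi ∧ PersG F G (1 * η') C} := by
      intro η' hη'
      refine ⟨⟨hη'.1, by linarith [hη'.2, hη.2]⟩, ?_⟩
      refine persG_mono (Or.inl rfl) hη'.1 hη'.2.le ?_
      rw [one_mul]
      exact h
    refine le_trans (le_of_eq ?_) (measure_mono h1)
    rw [Real.volume_Ioo, sub_zero, abs_of_pos h0]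

/-- counting with a lower bound for the terms of a sum -/
theorem card_mul_le {ι : Type*} {S : Set ι} {f : ι → ℝ≥0∞} {K e : ℝ≥0∞}
    (hsum : ∑' x : S, f x ≤ K) {A : Set ι} (hA : A ⊆ S) (h : ∀ x ∈ A, e ≤ f x) :
    (A.encard : ℝ≥0∞) * e ≤ K := by
  refine le_trans ?_ hsum
  have h1 : ∑' x : A, f x ≤ ∑' x : S, f x := ENNReal.tsum_mono_subtype f hA
  refine le_trans ?_ h1
  rw [← ENNReal.tsum_set_const A e]
  exact ENNReal.tsum_le_tsum fun x => h x x.2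

end Pool.Agent.Y96.HP
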